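import Pool.Agent.SKQ.Kit

/-!
# MNO: maximum and minimum principle on cubes for open embeddings
-/

set_option autoImplicit false

namespace Pool.Agent.SKQ.H52

open Metric Set Filter Topology MeasureTheory
open scoped ENNReal
open Helper22QC Pool.Agent.SKQ

variable {n : ℕ}

/-- the open cube -/
theorem isOpen_ocube (p : E n) (t : ℝ) : IsOpen {y : E n | ∀ i, |y i - p i| < t} := by
  have : {y : E n | ∀ i, |y i - p i| < t} = ⋂ i, {y : E n | |y i - p i| < t} := by
    ext y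
    simp
  rw [this]
  refine isOpen_iInter_of_finite fun i => isOpen_lt ?_ continuous_const
  fun_prop

theorem cube_cases {p y : E n} {t : ℝ} (h : y ∈ cube p t) :
    y ∈ bcube p t ∨ y ∈ {y : E n | ∀ i, |y i - p i| < t} := by
  by_cases h1 : ∃ i, |y i - p i| = t
  · exact Or.inl ⟨h, h1⟩
  · refine Or.inr fun i => lt_of_le_of_ne (h i) fun h2 => h1 ⟨i, h2⟩

theorem key {f : E n → E n} {V : Set (E n)} (hV : IsOpen (f '' V)) {y a : E n} (hy : y ∈ V)
    (hw : f y - a ≠ 0) :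
    (∃ y' ∈ V, ‖f y - a‖ < ‖f y' - a‖) ∧ ∃ y' ∈ V, ‖f y' - a‖ < ‖f y - a‖ := by
  obtain ⟨ε, hε, hb⟩ := Metric.isOpen_iff.1 hV (f y) ⟨y, hy, rfl⟩
  have hn : 0 < ‖f y - a‖ := norm_pos_iff.2 hw
  obtain ⟨δ, h0, h1, h2⟩ : ∃ δ : ℝ, 0 < δ ∧ δ < 1 ∧ δ * ‖f y - a‖ < ε := by
    refine ⟨min (1 / 2) (ε / (2 * ‖f y - a‖)), by positivity, ?_, ?_⟩
    · exact lt_of_le_of_lt (min_le_left _ _) (by norm_num)
    · calc min (1 / 2) (ε / (2 * ‖f y - a‖)) * ‖f y - a‖
          ≤ ε / (2 * ‖f y - a‖) * ‖f y - a‖ :=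
            mul_le_mul_of_nonneg_right (min_le_right _ _) hn.le
        _ = ε / 2 := by
            field_simp
        _ < ε := by linarith
  constructor
  · have h3 : f y + δ • (f y - a) ∈ ball (f y) ε := by
      rw [mem_ball, dist_eq_norm, add_sub_cancel_left, norm_smul, Real.norm_of_nonneg h0.le]
      exact h2
    obtain ⟨y', hy', he⟩ := hb h3
    refine ⟨y', hy', ?_⟩
    have h4 : f y' - a = (1 + δ) • (f y - a) := by
      rw [he, add_smul, one_smul]
      abel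
    rw [h4, norm_smul, Real.norm_of_nonneg (by linarith)]
    nlinarith
  · have h3 : f y - δ • (f y - a) ∈ ball (f y) ε := by
      rw [mem_ball, dist_eq_norm, sub_sub_cancel_left, norm_neg, norm_smul,
        Real.norm_of_nonneg h0.le]
      exact h2
    obtain ⟨y', hy', he⟩ := hb h3
    refine ⟨y', hy', ?_⟩
    have h4 : f y' - a = (1 - δ) • (f y - a) := by
      rw [he, sub_smul, one_smul]
      abel
    rw [h4, norm_smul, Real.norm_of_nonneg (by linarith)]
    nlinarith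

theorem mno : MNOStmt := by
  intro n R K t f F c p _ hL hc _ hsub hcn y hy
  have hV : IsOpen (f '' {y : E n | ∀ i, |y i - p i| < t}) :=
    hL.op _ (fun z hz => hsub fun i => (hz i).le) (isOpen_ocube p t)
  have hco : ContinuousOn (fun z => ‖f z - f c‖) (cube p t) :=
    ((hL.cont.mono hsub).sub continuousOn_const).norm
  have hne : ∀ z ∈ cube p t, f z - f c ≠ 0 := fun z hz =>
    hL.ne (hsub hz) hc fun h => hcn (h ▸ hz)
  obtain ⟨y₁, hy1, hm1⟩ := (isCompact_cube p t).exists_isMinOn ⟨y, hy⟩ hco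
  obtain ⟨y₂, hy2, hm2⟩ := (isCompact_cube p t).exists_isMaxOn ⟨y, hy⟩ hco
  refine ⟨y₁, ?_, y₂, ?_, hm1 hy, hm2 hy⟩
  · rcases cube_cases hy1 with h | h
    · exact h
    · obtain ⟨_, y', hy', hlt⟩ := key hV h (hne y₁ hy1)
      have h1 : ‖f y₁ - f c‖ ≤ ‖f y' - f c‖ := hm1 (show y' ∈ cube p t from fun i => (hy' i).le)
      exact absurd h1 (not_le.2 hlt)
  · rcases cube_cases hy2 with h | h
    · exact h
    · obtain ⟨⟨y', hy', hlt⟩, _⟩ := key hV h (hne y₂ hy2)
      have h1 : ‖f y' - f c‖ ≤ ‖f y₂ - f c‖ := hm2 (show y' ∈ cube p t from fun i => (hy' i).le)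
      exact absurd h1 (not_le.2 hlt)

end Pool.Agent.SKQ.H52
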