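import Pool.Agent.SKQ.Kit

/-!
# PA1, PA2: preimages of radial segments
-/

set_option autoImplicit false

namespace Pool.Agent.SKQ.H52

open Metric Set Filter Topology MeasureTheory
open scoped ENNReal
open Helper22QC Pool.Agent.SKQ

variable {n : ℕ}

/-- lifting of a path through `f` -/
theorem lift {R K : ℝ} {f : E n → E n} {F : E n → Mt n} (hL : Loc R K f F) {C : Set (E n)}
    (hC : C ⊆ ball 0 R) {g : ℝ → E n} (hg : ContinuousOn g (Icc 0 1))
    (hm : ∀ τ ∈ Icc (0 : ℝ) 1, g τ ∈ f '' C) :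
    ∃ γ : ℝ → E n, ContinuousOn γ (Icc 0 1) ∧ (∀ τ ∈ Icc (0 : ℝ) 1, γ τ ∈ C ∧ f (γ τ) = g τ) ∧
      ∀ τ ∈ Icc (0 : ℝ) 1, ∀ y ∈ C, g τ = f y → γ τ = y := by
  have hinv : ∀ y ∈ C, Function.invFunOn f (ball 0 R) (f y) = y := fun y hy =>
    hL.inj.leftInvOn_invFunOn (hC hy)
  refine ⟨fun τ => Function.invFunOn f (ball 0 R) (g τ), ?_, ?_, ?_⟩
  · exact hL.continuousOn_inv.comp hg fun τ hτ => image_mono hC (hm τ hτ)
  · intro τ hτ
    obtain ⟨y, hy, he⟩ := hm τ hτ
    have h1 : Function.invFunOn f (ball 0 R) (g τ) = y := by rw [← he, hinv y hy]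
    show Function.invFunOn f (ball 0 R) (g τ) ∈ C ∧ f (Function.invFunOn f (ball 0 R) (g τ)) = g τ
    rw [h1]
    exact ⟨hy, he⟩
  · intro τ _ y hy he
    show Function.invFunOn f (ball 0 R) (g τ) = y
    rw [he, hinv y hy]

theorem pa1 : PA1Stmt := by
  intro n R K s f F c p _ hL hs hsub hp hmin
  have hc : c ∈ ball (0 : E n) R := hsub (mem_closedBall_self hs.le)
  have hpc : p ∈ closedBall c s := by
    rw [mem_closedBall, dist_eq_norm, hp]
  have hpn : p ≠ c := by
    rintro rfl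
    rw [sub_self, norm_zero] at hp
    exact hs.ne hp
  have hl : 0 < ‖f p - f c‖ := norm_pos_iff.2 (hL.ne (hsub hpc) hc hpn)
  -- the open ball around `f c` is in the image of the open ball
  have hB : ball (f c) ‖f p - f c‖ ⊆ f '' ball c s := by
    have hu : IsOpen (f '' ball c s) := hL.op _ (ball_subset_closedBall.trans hsub) isOpen_ball
    have hv : IsOpen (f '' closedBall c s)ᶜ :=
      (((isCompact_closedBall c s).image_of_continuousOn (hL.cont.mono hsub)).isClosed).isOpen_compl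
    refine (convex_ball (f c) ‖f p - f c‖).isPreconnected.subset_left_of_subset_union hu hv ?_ ?_ ?_
    · rw [Set.disjoint_left]
      intro z hz hz'
      exact hz' (image_mono ball_subset_closedBall hz)
    · intro z hz
      by_cases h1 : z ∈ f '' closedBall c s
      · obtain ⟨y, hy, rfl⟩ := h1
        left
        refine ⟨y, ?_, rfl⟩
        rw [mem_closedBall, dist_eq_norm] at hy
        rw [mem_ball, dist_eq_norm]
        refine lt_of_le_of_ne hy fun h2 => ?_
        rw [mem_ball, dist_eq_norm] at hz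
        exact absurd (hmin y h2) (not_le.2 hz)
      · exact Or.inr h1
    · exact ⟨f c, mem_ball_self hl, c, mem_ball_self hs, rfl⟩
  have hg : ContinuousOn (fun τ : ℝ => f c + τ • (f p - f c)) (Icc 0 1) := by fun_prop
  have hm : ∀ τ ∈ Icc (0 : ℝ) 1, f c + τ • (f p - f c) ∈ f '' closedBall c s := by
    intro τ hτ
    rcases hτ.2.eq_or_lt with h1 | h1
    · rw [h1, one_smul, add_sub_cancel]
      exact ⟨p, hpc, rfl⟩
    · refine image_mono ball_subset_closedBall (hB ?_)
      rw [mem_ball, dist_eq_norm, add_sub_cancel_left, norm_smul, Real.norm_of_nonneg hτ.1]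
      nlinarith
  obtain ⟨γ, h1, h2, h3⟩ := lift hL hsub hg hm
  refine ⟨γ, h1, ?_, ?_, ?_⟩
  · refine h3 0 (by simp) c (mem_closedBall_self hs.le) ?_
    simp
  · refine h3 1 (by simp) p hpc ?_
    simp
  · intro τ hτ
    refine ⟨(h2 τ hτ).1, ?_⟩
    rw [(h2 τ hτ).2, add_sub_cancel_left, norm_smul, Real.norm_of_nonneg hτ.1]
    have := hτ.2
    nlinarith

theorem pa2 : PA2Stmt := by
  intro n R K s' f F c q _ hL hs hsub hqc hqs
  have hc : c ∈ ball (0 : E n) R := hsub (mem_closedBall_self hs.le)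
  have hq : q ∈ ball c s' := by
    rwa [mem_ball, dist_eq_norm]
  have hw : f q - f c ≠ 0 := hL.ne (hsub (ball_subset_closedBall hq)) hc hqc
  have hn : 0 < ‖f q - f c‖ := norm_pos_iff.2 hw
  have hu : IsOpen (f '' ball c s') := hL.op _ (ball_subset_closedBall.trans hsub) isOpen_ball
  have hcomp : IsCompact (f '' closedBall c s') :=
    (isCompact_closedBall c s').image_of_continuousOn (hL.cont.mono hsub)
  have hlc : Continuous fun τ : ℝ => f c + τ • (f q - f c) := by fun_prop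
  -- the exit time
  obtain ⟨S, hS⟩ : ∃ S : Set ℝ, S = {τ : ℝ | 1 ≤ τ ∧ f c + τ • (f q - f c) ∉ f '' ball c s'} :=
    ⟨_, rfl⟩
  have hScl : IsClosed S := by
    have : S = Ici 1 ∩ (fun τ : ℝ => f c + τ • (f q - f c)) ⁻¹' (f '' ball c s')ᶜ := by
      rw [hS]
      rfl
    rw [this]
    exact isClosed_Ici.inter (hu.isClosed_compl.preimage hlc)
  have hSb : BddBelow S := ⟨1, fun τ hτ => by
    rw [hS] at hτ
    exact hτ.1⟩
  have hSne : S.Nonempty := by
    obtain ⟨M, hM⟩ := hcomp.isBounded.subset_closedBall (f c)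
    have hM0 : 0 ≤ M := by
      have h1 := hM ⟨c, mem_closedBall_self hs.le, rfl⟩
      rw [mem_closedBall, dist_self] at h1
      exact h1
    refine ⟨1 + M / ‖f q - f c‖, ?_⟩
    rw [hS]
    refine ⟨by
      have : 0 ≤ M / ‖f q - f c‖ := by positivity
      linarith, fun h1 => ?_⟩
    have h2 := hM (image_mono ball_subset_closedBall h1)
    rw [mem_closedBall, dist_eq_norm, add_sub_cancel_left, norm_smul,
      Real.norm_of_nonneg (by positivity), add_mul, one_mul, div_mul_cancel₀ _ hn.ne'] at h2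
    linarith
  obtain ⟨T, hT⟩ : ∃ T : ℝ, T = sInf S := ⟨_, rfl⟩
  have hTS : T ∈ S := by
    rw [hT]
    exact hScl.csInf_mem hSne hSb
  have hTS' := hTS
  rw [hS] at hTS'
  obtain ⟨hT1, hTn⟩ := hTS'
  have hlt : ∀ τ : ℝ, 1 ≤ τ → τ < T → f c + τ • (f q - f c) ∈ f '' ball c s' := by
    intro τ h1 h2
    by_contra h3
    have h4 : τ ∈ S := by
      rw [hS]
      exact ⟨h1, h3⟩
    have h5 := csInf_le hSb h4
    rw [← hT] at h5
    linarith
  have hT1' : 1 < T := by
    refine lt_of_le_of_ne hT1 fun h1 => hTn ?_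
    rw [← h1, one_smul, add_sub_cancel]
    exact ⟨q, hq, rfl⟩
  have hTm : f c + T • (f q - f c) ∈ f '' closedBall c s' := by
    have h1 : Tendsto (fun τ : ℝ => f c + τ • (f q - f c)) (𝓝[Ioo 1 T] T)
        (𝓝 (f c + T • (f q - f c))) := hlc.continuousAt.continuousWithinAt
    have h2 : (𝓝[Ioo 1 T] T).NeBot := by
      rw [← mem_closure_iff_nhdsWithin_neBot, closure_Ioo hT1'.ne]
      exact right_mem_Icc.2 hT1
    refine hcomp.isClosed.mem_of_tendsto h1 ?_
    filter_upwards [self_mem_nhdsWithin] with τ hτ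
    exact image_mono ball_subset_closedBall (hlt τ hτ.1.le hτ.2)
  have hg : ContinuousOn (fun σ : ℝ => f c + (1 + σ * (T - 1)) • (f q - f c)) (Icc 0 1) := by
    fun_prop
  have hm : ∀ σ ∈ Icc (0 : ℝ) 1, f c + (1 + σ * (T - 1)) • (f q - f c) ∈
      f '' closedBall c s' := by
    intro σ hσ
    rcases hσ.2.eq_or_lt with h1 | h1
    · rw [h1, one_mul, add_sub_cancel]
      exact hTm
    · have h2 := hσ.1
      exact image_mono ball_subset_closedBall (hlt _ (by nlinarith) (by nlinarith))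
  obtain ⟨γ, h1, h2, h3⟩ := lift hL hsub hg hm
  refine ⟨γ, h1, ?_, ?_, ?_⟩
  · refine h3 0 (by simp) q (ball_subset_closedBall hq) ?_
    simp
  · obtain ⟨h4, h5⟩ := h2 1 (by simp)
    rw [one_mul, add_sub_cancel] at h5
    rw [mem_closedBall, dist_eq_norm] at h4
    by_contra h6
    refine hTn ?_
    rw [← h5]
    refine ⟨γ 1, ?_, rfl⟩
    rw [mem_ball, dist_eq_norm]
    exact lt_of_le_of_ne h4 h6
  · intro σ hσ
    refine ⟨(h2 σ hσ).1, ?_⟩
    have h4 := hσ.1
    have h5 : 1 ≤ 1 + σ * (T - 1) := by nlinarith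
    rw [(h2 σ hσ).2, add_sub_cancel_left, norm_smul, Real.norm_of_nonneg (by linarith)]
    nlinarith

end Pool.Agent.SKQ.H52
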